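import Pool.Agent.Lib.KG.Main

/-!
# Global exact boundary controllability of the Gear–Grimshaw system, for all couplings

The system
`u_t + u_xxx + a v_xxx + u u_x + a1 v v_x + a2 (u v)_x = 0`,
`c v_t + v_xxx + a b u_xxx + r v_x + v v_x + a2 b u u_x + a1 b (u v)_x = 0`
on `(0, L)`, with the boundary controls `u = h0`, `v = g0` at `x = 0`, `u_x = h1`, `v_x = g1`,
`u_xx = h2`, `v_xx = g2` at `x = L`, is exactly controllable between arbitrary states of
`L²(0, L)²` in every time `T ≥ T0`, where `T0` does not depend on the states, for all real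
`a, a1, a2, r` and all `b, c > 0` with `a² b < 1`.
-/

set_option autoImplicit false

namespace Pool.Agent.Results.MP_78c35a_an.GlobalControlAll

theorem result : ∀ L a a1 a2 b c r : ℝ, 0 < L → 0 < b → 0 < c → a ^ 2 * b < 1 →
    ∃ T0 : ℝ, 0 < T0 ∧ ∀ T : ℝ, T0 ≤ T →
      Pool.Agent.Kdv.ExactlyControllable L a a1 a2 b c r T :=
  fun _ _ _ _ _ _ _ hL hb hc ha => Pool.Agent.KG.controllable_all hL hb hc ha

end Pool.Agent.Results.MP_78c35a_an.GlobalControlAll
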